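import Pool.Agent.H83.KM2.Stm

set_option autoImplicit false

open Finset

namespace Pool.Agent.H88.KM2

open Pool.Agent.H83.KM Pool.Agent.H83.KM2

theorem ten_points (c0 c1 c2 c3 c4 c5 c6 c8 c9 c12 : ℝ)
    (h : ∀ a : Fin 10, c0 + c1 * ((a : ℝ) + 1) + c2 * ((a : ℝ) + 1) ^ 2 + c3 * ((a : ℝ) + 1) ^ 3 +
      c4 * ((a : ℝ) + 1) ^ 4 + c5 * ((a : ℝ) + 1) ^ 5 + c6 * ((a : ℝ) + 1) ^ 6 +
      c8 * ((a : ℝ) + 1) ^ 8 + c9 * ((a : ℝ) + 1) ^ 9 + c12 * ((a : ℝ) + 1) ^ 12 = 0) :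
    c0 = 0 ∧ c1 = 0 ∧ c2 = 0 ∧ c3 = 0 ∧ c4 = 0 ∧ c5 = 0 ∧ c6 = 0 ∧ c8 = 0 ∧ c9 = 0 ∧ c12 = 0 := by
  have e0 : c0 * 1 + c1 * 1 + c2 * 1 + c3 * 1 + c4 * 1 + c5 * 1 + c6 * 1 + c8 * 1 + c9 * 1 + c12 * 1 = 0 := by
    have := h 0
    norm_num at this
    linear_combination this
  have e1 : c0 * 1 + c1 * 2 + c2 * 4 + c3 * 8 + c4 * 16 + c5 * 32 + c6 * 64 + c8 * 256 + c9 * 512 + c12 * 4096 = 0 := by
    have := h 1
    norm_num at this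
    linear_combination this
  have e2 : c0 * 1 + c1 * 3 + c2 * 9 + c3 * 27 + c4 * 81 + c5 * 243 + c6 * 729 + c8 * 6561 + c9 * 19683 + c12 * 531441 = 0 := by
    have := h 2
    norm_num at this
    linear_combination this
  have e3 : c0 * 1 + c1 * 4 + c2 * 16 + c3 * 64 + c4 * 256 + c5 * 1024 + c6 * 4096 + c8 * 65536 + c9 * 262144 + c12 * 16777216 = 0 := by
    have := h 3
    norm_num at this
    linear_combination this
  have e4 : c0 * 1 + c1 * 5 + c2 * 25 + c3 * 125 + c4 * 625 + c5 * 3125 + c6 * 15625 + c8 * 390625 + c9 * 1953125 + c12 * 244140625 = 0 := by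
    have := h 4
    norm_num at this
    linear_combination this
  have e5 : c0 * 1 + c1 * 6 + c2 * 36 + c3 * 216 + c4 * 1296 + c5 * 7776 + c6 * 46656 + c8 * 1679616 + c9 * 10077696 + c12 * 2176782336 = 0 := by
    have := h 5
    norm_num at this
    linear_combination this
  have e6 : c0 * 1 + c1 * 7 + c2 * 49 + c3 * 343 + c4 * 2401 + c5 * 16807 + c6 * 117649 + c8 * 5764801 + c9 * 40353607 + c12 * 13841287201 = 0 := by
    have := h 6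
    norm_num at this
    linear_combination this
  have e7 : c0 * 1 + c1 * 8 + c2 * 64 + c3 * 512 + c4 * 4096 + c5 * 32768 + c6 * 262144 + c8 * 16777216 + c9 * 134217728 + c12 * 68719476736 = 0 := by
    have := h 7
    norm_num at this
    linear_combination this
  have e8 : c0 * 1 + c1 * 9 + c2 * 81 + c3 * 729 + c4 * 6561 + c5 * 59049 + c6 * 531441 + c8 * 43046721 + c9 * 387420489 + c12 * 282429536481 = 0 := by
    have := h 8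
    norm_num at this
    linear_combination this
  have e9 : c0 * 1 + c1 * 10 + c2 * 100 + c3 * 1000 + c4 * 10000 + c5 * 100000 + c6 * 1000000 + c8 * 100000000 + c9 * 1000000000 + c12 * 1000000000000 = 0 := by
    have := h 9
    norm_num at this
    linear_combination this
  refine ⟨?_, ?_, ?_, ?_, ?_, ?_, ?_, ?_, ?_, ?_⟩
  · linear_combination (636720 / 70213 : ℝ) * e0 + (-2595075 / 70213 : ℝ) * e1 + (6260520 / 70213 : ℝ) * e2 + (-9901290 / 70213 : ℝ) * e3 + (10727976 / 70213 : ℝ) * e4 + (-8065470 / 70213 : ℝ) * e5 + (4155000 / 70213 : ℝ) * e6 + (-1403745 / 70213 : ℝ) * e7 + (280840 / 70213 : ℝ) * e8 + (-25263 / 70213 : ℝ) * e9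
  · linear_combination (-268826 / 16203 : ℝ) * e0 + (11149495 / 129624 : ℝ) * e1 + (-3599581 / 16203 : ℝ) * e2 + (23511343 / 64812 : ℝ) * e3 + (-32432153 / 81015 : ℝ) * e4 + (19736779 / 64812 : ℝ) * e5 + (-2562455 / 16203 : ℝ) * e6 + (3482969 / 64812 : ℝ) * e7 + (-58319 / 5401 : ℝ) * e8 + (210533 / 216040 : ℝ) * e9
  · linear_combination (79031809 / 6238155 : ℝ) * e0 + (-3034270409 / 39924192 : ℝ) * e1 + (2271862289 / 10693980 : ℝ) * e2 + (-2576856407 / 7129320 : ℝ) * e3 + (291424499 / 712932 : ℝ) * e4 + (-13516011601 / 42775920 : ℝ) * e5 + (118296493 / 712932 : ℝ) * e6 + (-2836657267 / 49905240 : ℝ) * e7 + (860117981 / 74857860 : ℝ) * e8 + (-5941667 / 5703456 : ℝ) * e9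
  · linear_combination (-3907717 / 742392 : ℝ) * e0 + (103337275 / 2969568 : ℝ) * e1 + (-25761691 / 247464 : ℝ) * e2 + (39272449 / 212112 : ℝ) * e3 + (-22858985 / 106056 : ℝ) * e4 + (6007465 / 35352 : ℝ) * e5 + (-9598477 / 106056 : ℝ) * e6 + (46512449 / 1484784 : ℝ) * e7 + (-65806 / 10311 : ℝ) * e8 + (576235 / 989856 : ℝ) * e9
  · linear_combination (75135271 / 58330800 : ℝ) * e0 + (-472867987 / 51849600 : ℝ) * e1 + (62278757 / 2160400 : ℝ) * e2 + (-2079372481 / 38887200 : ℝ) * e3 + (83230661 / 1296240 : ℝ) * e4 + (-1342534661 / 25924800 : ℝ) * e5 + (60595703 / 2160400 : ℝ) * e6 + (-127452007 / 12962400 : ℝ) * e7 + (3277529 / 1620300 : ℝ) * e8 + (-17350807 / 93329280 : ℝ) * e9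
  · linear_combination (-129887 / 707040 : ℝ) * e0 + (1934251 / 1414080 : ℝ) * e1 + (-1065079 / 235680 : ℝ) * e2 + (6153463 / 707040 : ℝ) * e3 + (-7619959 / 707040 : ℝ) * e4 + (1049687 / 117840 : ℝ) * e5 + (-3477383 / 707040 : ℝ) * e6 + (1237457 / 707040 : ℝ) * e7 + (-14311 / 39280 : ℝ) * e8 + (15931 / 471360 : ℝ) * e9
  · linear_combination (12719543 / 979957440 : ℝ) * e0 + (-819893 / 8166312 : ℝ) * e1 + (9356983 / 27221040 : ℝ) * e2 + (-2659523 / 3888720 : ℝ) * e3 + (4068277 / 4666464 : ℝ) * e4 + (-957743 / 1296240 : ℝ) * e5 + (972071 / 2333232 : ℝ) * e6 + (-12317849 / 81663120 : ℝ) * e7 + (3467039 / 108884160 : ℝ) * e8 + (-146371 / 48997872 : ℝ) * e9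
  · linear_combination (-207467 / 3266524800 : ℝ) * e0 + (70493 / 136105200 : ℝ) * e1 + (-36341 / 19443600 : ℝ) * e2 + (152297 / 38887200 : ℝ) * e3 + (-81659 / 15554880 : ℝ) * e4 + (181493 / 38887200 : ℝ) * e5 + (-26747 / 9721800 : ℝ) * e6 + (282229 / 272210400 : ℝ) * e7 + (-246781 / 1088841600 : ℝ) * e8 + (511 / 23332320 : ℝ) * e9
  · linear_combination (47 / 14847840 : ℝ) * e0 + (-781 / 29695680 : ℝ) * e1 + (479 / 4949280 : ℝ) * e2 + (-439 / 2121120 : ℝ) * e3 + (601 / 2121120 : ℝ) * e4 + (-91 / 353520 : ℝ) * e5 + (329 / 2121120 : ℝ) * e6 + (-887 / 14847840 : ℝ) * e7 + (11 / 824880 : ℝ) * e8 + (-13 / 9898560 : ℝ) * e9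
  · linear_combination (-211 / 1401339139200 : ℝ) * e0 + (607 / 467113046400 : ℝ) * e1 + (-97 / 19463043600 : ℝ) * e2 + (31 / 2780434800 : ℝ) * e3 + (-107 / 6673043520 : ℝ) * e4 + (19 / 1235748800 : ℝ) * e5 + (-41 / 4170652200 : ℝ) * e6 + (59 / 14597282700 : ℝ) * e7 + (-151 / 155704348800 : ℝ) * e8 + (29 / 280267827840 : ℝ) * e9

/-- X10: ten points of the curve `(m, m^4, 1)` are not on a cubic. -/
theorem t_X10 (hT : S_T4) : S_X10 := by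
  intro n e hE hD
  obtain ⟨p, hp⟩ := hT n 10 e hE hD
  refine ⟨p, fun Φ hΦ => ?_⟩
  have key : ∀ w : Fin 3 → ℝ, cub Φ w =
      Φ 0 0 0 * w 0 ^ 3 + (Φ 0 0 1 + Φ 0 1 0 + Φ 1 0 0) * (w 0 ^ 2 * w 1) +
      (Φ 0 1 1 + Φ 1 0 1 + Φ 1 1 0) * (w 0 * w 1 ^ 2) + Φ 1 1 1 * w 1 ^ 3 +
      (Φ 0 0 2 + Φ 0 2 0 + Φ 2 0 0) * (w 0 ^ 2 * w 2) +
      (Φ 0 1 2 + Φ 0 2 1 + Φ 1 0 2 + Φ 1 2 0 + Φ 2 0 1 + Φ 2 1 0) * (w 0 * w 1 * w 2) +
      (Φ 1 1 2 + Φ 1 2 1 + Φ 2 1 1) * (w 1 ^ 2 * w 2) +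
      (Φ 0 2 2 + Φ 2 0 2 + Φ 2 2 0) * (w 0 * w 2 ^ 2) +
      (Φ 1 2 2 + Φ 2 1 2 + Φ 2 2 1) * (w 1 * w 2 ^ 2) + Φ 2 2 2 * w 2 ^ 3 := by
    intro w
    simp only [cub, Fin.sum_univ_three]
    ring
  obtain ⟨h0, h1, h2, h3, h4, h5, h6, h8, h9, h12⟩ := ten_points (Φ 2 2 2)
    (Φ 0 2 2 + Φ 2 0 2 + Φ 2 2 0) (Φ 0 0 2 + Φ 0 2 0 + Φ 2 0 0) (Φ 0 0 0)
    (Φ 1 2 2 + Φ 2 1 2 + Φ 2 2 1)
    (Φ 0 1 2 + Φ 0 2 1 + Φ 1 0 2 + Φ 1 2 0 + Φ 2 0 1 + Φ 2 1 0)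
    (Φ 0 0 1 + Φ 0 1 0 + Φ 1 0 0) (Φ 1 1 2 + Φ 1 2 1 + Φ 2 1 1)
    (Φ 0 1 1 + Φ 1 0 1 + Φ 1 1 0) (Φ 1 1 1) (fun a => by
      obtain ⟨l, hl, hq⟩ := hp a
      have h := hΦ a
      rw [hq, key] at h
      simp only [Matrix.cons_val_zero, Matrix.cons_val_one, Matrix.cons_val] at h
      have hl3 : l ^ 3 ≠ 0 := pow_ne_zero 3 hl
      refine (mul_eq_zero.1 (?_ : l ^ 3 * _ = 0)).resolve_left hl3
      linear_combination h)
  intro w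
  rw [key, h0, h1, h2, h3, h4, h5, h6, h8, h9, h12]
  ring

end Pool.Agent.H88.KM2
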